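import Pool.Agent.H75C.HY.BackCode

/-!
# Hybrid logic with `◇`, `□`, `↓`, `@`: affine connectives are exactly as hard as all connectives

Let `𝔅` be a finite set of Boolean functions that generates the clone `L` of the affine functions. For
each of the four frame classes (all, transitive, total, equivalence relations) and for the set of
operators `O_2 = {◇, □, ↓, @}`, the satisfiability problem for formulas with connectives from `𝔅` and
the one for formulas with implication and falsity (so with all Boolean connectives) reduce to each
other in polynomial time.

From Boolean to affine formulas. We add to the model a hub, named by a nominal, that has at least
three successors; the variable `a` names one of them. At a state `s` the implication `β → α` is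
equivalent to `↓s. @_hub ◇ ↓u. (@_s β ⊕ @_hub ◇ (u ⊕ a ⊕ 1 ⊕ @_s α))`: the inner part says that `u` and
`a` are different or `α` is false at `s`, since there is a successor of the hub other than `u` and
`a`. That the hub has at least two, and not exactly two, successors is stated by sums of formulas of
the same form, which are false together if the rest of the formula is false. Variables are reused, so
the translation is linear.

From any base to Boolean formulas. The obvious translation doubles the arguments of a sum. Instead,
`φ` is translated into a formula saying that `φ` has the truth value given by a variable `y` (whether
`y` names a fixed successor of the hub). Then all arguments occur only once: for a connective `b` one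
states that there are values `z_i` of the arguments with `b(z_0, z_1, …) = y`; for `◇ φ` one states
`∃ v ∀ v' φ'`, where `φ'` is evaluated at `v` if `y` is true and at `v'` if `y` is false.
-/

namespace Pool.Agent.Results.MP_bba6cc_lc.AffineEquivalentBoolean

open Pool.Agent.H75C.HY

/-- **Theorem.** If `𝔅` generates the clone of the affine functions, then over each of the four frame
classes the satisfiability problems for the full Boolean base and for the base `𝔅` reduce to each
other in polynomial time. -/
theorem result (𝔅 : Base) (h : 𝔅.IsL) (𝔉 : FrameClass) :
    Reduces 𝔉 impBot 𝔅 ∧ Reduces 𝔉 𝔅 impBot :=
  ⟨boolean_reduces h 𝔉, reduces_boolean 𝔅 𝔉⟩

end Pool.Agent.Results.MP_bba6cc_lc.AffineEquivalentBoolean
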