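import Pool.Agent.H75C.HY.BackCode
import Pool.Agent.H75C.HY.TRMain
import Pool.Agent.H75C.HY.GameFin
import Pool.Agent.H75C.HY.NFin
import Pool.Agent.H75C.HY.NFSem
import Pool.Agent.H75C.HY.NFA6
import Pool.Agent.H75C.HY.NFB1
import Pool.Agent.Helper48.HY.PartD
import Pool.Agent.Helper48.HY.PartE
import Pool.Agent.Helper88.NF.A1
import Pool.Agent.Helper37NF.A2
import Pool.Agent.Helper37NF.B5
import Pool.Agent.Helper11X.A3
import Pool.Agent.Helper82.NF.A5
import Pool.Agent.Helper82.NF.B4
import Pool.Agent.Helper80.NF.B2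
import Pool.Agent.Helper96.NFB3.B3

/-!
# Hybrid logic with affine connectives: the complexity for all frame classes and both languages

Let `𝔅` be a finite set of Boolean functions that generates the clone `L` of the affine functions, and
let `O_1 = {◇, □, ↓}`, `O_2 = {◇, □, ↓, @}`. The complexity of the satisfiability problem is

* for `O_2` over each of the four frame classes: that of the problem for all Boolean connectives (so
  `coRE`-complete over all, transitive and total frames and `NEXPTIME`-complete over equivalence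
  relations, by the known results for the full Boolean base);
* for `O_1` over transitive frames and over equivalence relations: `PSPACE`-complete;
* for `O_1` over all frames and over total frames: in `P`.

The proofs are described in the files of the three parts, `AffineEquivalentBoolean`,
`CompleteWithoutAt` and `InPWithoutAt`.
-/

namespace Pool.Agent.Results.MP_bba6cc_lc.Classification

open Pool.Agent.H75C.HY Pool.Agent.NPC Pool.Agent.H623R2.PS

/-- **Theorem.** The eight cases of the question, for a base `𝔅` that generates the clone of the affine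
functions. -/
theorem result (𝔅 : Base) (h : 𝔅.IsL) :
    (∀ 𝔉 : FrameClass, Pool.Agent.H75C.HY.Reduces 𝔉 impBot 𝔅 ∧ Pool.Agent.H75C.HY.Reduces 𝔉 𝔅 impBot) ∧
    (PSPACEComplete (SatO1 .trans 𝔅) ∧ PSPACEComplete (SatO1 .er 𝔅)) ∧
    InP (SatO1 .all 𝔅) ∧ InP (SatO1 .total 𝔅) := by
  have hP : ∀ 𝔉 : FrameClass, 𝔉 = .all ∨ 𝔉 = .total → InP (SatO1 𝔉 𝔅) := fun 𝔉 h𝔉 =>
    NF.inP_of Pool.Agent.H87F.HYA.partA
      (NF.sem_of Pool.Agent.Helper88.NF.a1 NF.a4
        (NF.a6 NF.a2 (Pool.Agent.Helper82.NF.a5 NF.a2 NF.a3)))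
      (NF.alg_of NF.b1 Pool.Agent.Helper80.NF.b2 NF.b3 (Pool.Agent.Helper82.NFB.b4 NF.b5))
      (affine_ev h) h𝔉
  exact ⟨fun 𝔉 => ⟨boolean_reduces h 𝔉, reduces_boolean 𝔅 𝔉⟩,
    ⟨⟨TR.in_trans (affine_ev h), hard_SatO1 h (Or.inl rfl)⟩,
      ⟨in_er_of Pool.Agent.H87F.HYA.partA Pool.Agent.Helper36.HYB.partB GC.partC
        Pool.Agent.Helper48.HY.partD Pool.Agent.Helper48.HY.partE (affine_ev h),
        hard_SatO1 h (Or.inr rfl)⟩⟩,
    hP .all (Or.inl rfl), hP .total (Or.inr rfl)⟩

end Pool.Agent.Results.MP_bba6cc_lc.Classification
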