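import Pool.Agent.H75C.HY.TRMain
import Pool.Agent.H75C.HY.GameFin
import Pool.Agent.H75C.HY.OneCode
import Pool.Agent.Helper48.HY.PartD
import Pool.Agent.Helper48.HY.PartE

/-!
# Hybrid logic without `@` and with affine connectives: transitive frames, equivalence relations

Let `𝔅` be a finite set of Boolean functions that generates the clone `L` of the affine functions. The
satisfiability problem for formulas with connectives from `𝔅` and the operators `O_1 = {◇, □, ↓}` is
complete for `PSPACE`, over transitive frames as well as over equivalence relations.

Hardness. Truth of quantified Boolean formulas is reduced to the problem. In a cluster (a set of states
each of which sees exactly its elements), `◇ (x ⊕ y)` says that `x` and `y` name different states, at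
whatever state it is evaluated; so a bit is represented by a variable that names the same state as the
variable `a` or not, and implications between formulas that do not depend on the state can be expressed
by sums of formulas `◇…` if the cluster has at least three elements. That this is so, and, over
transitive frames, that a named state is in a cluster that consists of all its successors, can be
stated by such sums together with a formula that does not depend on the state.

Membership. In a cluster `C`, an affine combination `f` of atomic propositions that belongs to a
subformula `◇ψ` makes `◇ψ` true as soon as `f` is true at many states of `C` and false at many states of
`C`, since the other parts of `ψ` take the same value at all states not named so far. Hence clusters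
can be shrunk to polynomial size without a change of truth values (over transitive frames: with flags
that say which subformulas take which values above the cluster). A formula can be evaluated in such a
cluster by a game with polynomially many rounds. Over transitive frames, the first player names the
clusters of the named states with their flags; the second player asks for a witness of a flag, the
first player answers with a cluster, whose flags must be among the old ones; if they are the same, the
play ends, since the answer can be repeated for ever (so models may be infinite), otherwise it goes on.
-/

namespace Pool.Agent.Results.MP_bba6cc_lc.CompleteWithoutAt

open Pool.Agent.H75C.HY Pool.Agent.H623R2.PS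

/-- **Theorem.** If `𝔅` generates the clone of the affine functions, then the satisfiability problem
for the base `𝔅` and the operators `◇`, `□`, `↓` is `PSPACE`-complete, over transitive frames and over
equivalence relations. -/
theorem result (𝔅 : Base) (h : 𝔅.IsL) (𝔉 : FrameClass) (h𝔉 : 𝔉 = .trans ∨ 𝔉 = .er) :
    PSPACEComplete (SatO1 𝔉 𝔅) := by
  refine ⟨?_, hard_SatO1 h h𝔉⟩
  rcases h𝔉 with rfl | rfl
  · exact TR.in_trans (affine_ev h)
  · exact in_er_of Pool.Agent.H87F.HYA.partA Pool.Agent.Helper36.HYB.partB GC.partC
      Pool.Agent.Helper48.HY.partD Pool.Agent.Helper48.HY.partE (affine_ev h)

end Pool.Agent.Results.MP_bba6cc_lc.CompleteWithoutAt
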