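import Pool.Agent.H75C.HY.NFin
import Pool.Agent.H75C.HY.NFSem
import Pool.Agent.H75C.HY.NFA6
import Pool.Agent.H75C.HY.NFB1
import Pool.Agent.H87F.HYA
import Pool.Agent.Helper88.NF.A1
import Pool.Agent.Helper37NF.A2
import Pool.Agent.Helper37NF.B5
import Pool.Agent.Helper11X.A3
import Pool.Agent.Helper82.NF.A5
import Pool.Agent.Helper82.NF.B4
import Pool.Agent.Helper80.NF.B2
import Pool.Agent.Helper96.NFB3.B3

/-!
# Hybrid logic without `@` and with affine connectives over all frames and over total frames

Let `𝔅` be a finite set of Boolean functions that generates the clone `L` of the affine functions. The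
satisfiability problem for formulas with connectives from `𝔅` and the operators `O_1 = {◇, □, ↓}` is in
`P`, over all frames as well as over total frames.

Proof. Up to equivalence, a formula is a sum modulo `2` of atoms and of formulas `◇ψ`, and variables may
be replaced by the depth of the state they name. Cancelling equal summands recursively gives a normal
form, which is computed in polynomial time with a table of the formulas `ψ` seen so far. The formula is
satisfiable if and only if its normal form is not `0`. For the proof of this, `◇ψ` is expanded into the
sum over all nonempty subsets of the support of `ψ` (Möbius inversion); to every element `t` of a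
support a finite tree with edges back to named states is assigned, such that at its root `t` has the
value `1` and of the other elements only those below `t` in a certain partial order can have the value
`1`, whatever the named states see. So at the tree of a minimal element of the support the formula is
true.
-/

namespace Pool.Agent.Results.MP_bba6cc_lc.InPWithoutAt

open Pool.Agent.H75C.HY Pool.Agent.NPC

/-- **Theorem.** If `𝔅` generates the clone of the affine functions, then the satisfiability problem
for the base `𝔅` and the operators `◇`, `□`, `↓` is in `P`, over all frames and over total frames. -/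
theorem result (𝔅 : Base) (h : 𝔅.IsL) (𝔉 : FrameClass) (h𝔉 : 𝔉 = .all ∨ 𝔉 = .total) :
    InP (SatO1 𝔉 𝔅) :=
  have b5 := NF.b5
  NF.inP_of Pool.Agent.H87F.HYA.partA
    (NF.sem_of Pool.Agent.Helper88.NF.a1 NF.a4
      (NF.a6 NF.a2 (Pool.Agent.Helper82.NF.a5 NF.a2 NF.a3)))
    (NF.alg_of NF.b1 Pool.Agent.Helper80.NF.b2 NF.b3 (Pool.Agent.Helper82.NFB.b4 b5))
    (affine_ev h) h𝔉

end Pool.Agent.Results.MP_bba6cc_lc.InPWithoutAt
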